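import Mathlib

/-!
Bipartite graphs with large additive coloring number: the construction.
-/

set_option autoImplicit false

namespace Pool.Agent.Lib.MP_84c3f1_co

open Finset

/-! ### Zero-sum subsets -/

lemma bad_card {q : ℕ} (g : ℕ) (hg : 0 < g) (s : Fin q → ℕ) (B : Finset (Fin q))
    (hB : ∀ t ∈ B, ∀ T : Finset (Fin q), t ∈ T → ¬ g ∣ ∑ r ∈ T, s r) : B.card < 2 * g - 1 := by
  by_contra hcon
  push Not at hcon
  obtain ⟨T, hTB, hTc, hT⟩ := Int.erdos_ginzburg_ziv (n := g) (fun r => (s r : ℤ)) hcon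
  have hne : T.Nonempty := by rw [← Finset.card_pos, hTc]; exact hg
  obtain ⟨t, ht⟩ := hne
  apply hB t (hTB ht) T ht
  have h1 : ((g : ℕ) : ℤ) ∣ ((∑ r ∈ T, s r : ℕ) : ℤ) := by push_cast; exact hT
  exact_mod_cast h1

lemma gamma {q g : ℕ} (hg : 0 < g) (hq : 4 * g ≤ q) (σ β : Fin q → Fin q → ℕ) :
    ∃ (t t' : Fin q) (T T' : Finset (Fin q)), t ∈ T ∧ t' ∈ T' ∧
      g ∣ ∑ r ∈ T, σ r t' ∧ g ∣ ∑ r ∈ T', β t r := by
  classical
  by_contra hcon
  push Not at hcon
  let B1 : Fin q → Finset (Fin q) := fun t' =>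
    univ.filter (fun t => ∀ T : Finset (Fin q), t ∈ T → ¬ g ∣ ∑ r ∈ T, σ r t')
  let B2 : Fin q → Finset (Fin q) := fun t =>
    univ.filter (fun t' => ∀ T' : Finset (Fin q), t' ∈ T' → ¬ g ∣ ∑ r ∈ T', β t r)
  have hB1 : ∀ t', (B1 t').card < 2 * g - 1 := fun t' =>
    bad_card g hg (fun r => σ r t') (B1 t') (by intro t ht; simpa [B1] using ht)
  have hB2 : ∀ t, (B2 t).card < 2 * g - 1 := fun t =>
    bad_card g hg (fun r => β t r) (B2 t) (by intro t' ht; simpa [B2] using ht)
  have hcov : ∀ t t', t ∈ B1 t' ∨ t' ∈ B2 t := by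
    intro t t'
    by_contra h
    push Not at h
    obtain ⟨h1, h2⟩ := h
    simp only [B1, B2, mem_filter, mem_univ, true_and, not_forall, not_not] at h1 h2
    obtain ⟨T, hT, hT'⟩ := h1
    obtain ⟨U, hU, hU'⟩ := h2
    exact hcon t t' T U hT hU hT' hU'
  have hcount : q * q ≤ ∑ t' : Fin q, (B1 t').card + ∑ t : Fin q, (B2 t).card := by
    have h1 : q * q = ∑ _t : Fin q, ∑ _t' : Fin q, 1 := by simp
    have h2 : ∑ t' : Fin q, (B1 t').card
        = ∑ t : Fin q, ∑ t' : Fin q, if t ∈ B1 t' then 1 else 0 := by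
      rw [Finset.sum_comm]
      apply Finset.sum_congr rfl
      intro t' _
      simp
    have h3 : ∑ t : Fin q, (B2 t).card
        = ∑ t : Fin q, ∑ t' : Fin q, if t' ∈ B2 t then 1 else 0 := by
      apply Finset.sum_congr rfl
      intro t _
      simp
    rw [h1, h2, h3, ← Finset.sum_add_distrib]
    apply Finset.sum_le_sum
    intro t _
    rw [← Finset.sum_add_distrib]
    apply Finset.sum_le_sum
    intro t' _
    rcases hcov t t' with h | h
    · simp [h]
    · simp [h]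
  have h4 : ∑ t' : Fin q, (B1 t').card ≤ q * (2 * g - 2) := by
    calc ∑ t' : Fin q, (B1 t').card ≤ ∑ _t' : Fin q, (2 * g - 2) :=
          Finset.sum_le_sum (fun t' _ => by have := hB1 t'; omega)
      _ = _ := by simp
  have h5 : ∑ t : Fin q, (B2 t).card ≤ q * (2 * g - 2) := by
    calc ∑ t : Fin q, (B2 t).card ≤ ∑ _t : Fin q, (2 * g - 2) :=
          Finset.sum_le_sum (fun t _ => by have := hB2 t; omega)
      _ = _ := by simp
  have h6 : q * q ≤ q * (2 * (2 * g - 2)) := by nlinarith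
  have hq0 : 0 < q := by omega
  have h7 : q ≤ 2 * (2 * g - 2) := Nat.le_of_mul_le_mul_left h6 hq0
  omega

/-! ### Covering all differences -/

lemma cover {N R h i j P Q : ℕ} (hi : 1 ≤ i) (hiN : i ≤ N) (hj : 1 ≤ j) (hP : P ≤ R)
    (hQ : Q ≤ R) (hgP : Nat.gcd i j ∣ P) (hgQ : Nat.gcd i j ∣ Q) (hh0 : 0 < h)
    (hh : 2 * R + N ≤ h * (h - 1)) :
    ∃ k ρ μ : ℕ, k < N * h ∧ ρ < j ∧ μ < h ∧
      j * (R + N + k) + P = i * (ρ + j * h * μ) + Q := by
  have hjpos : (0 : ℤ) < j := by exact_mod_cast hj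
  have hipos : (0 : ℤ) < i := by exact_mod_cast hi
  -- the residue `ρ`
  obtain ⟨ρ, hρ0, hρj, κ, hκ⟩ : ∃ ρ : ℤ, 0 ≤ ρ ∧ ρ < j ∧ ∃ κ : ℤ, (i : ℤ) * ρ + Q - P = j * κ := by
    have hg : ((Nat.gcd i j : ℕ) : ℤ) ∣ (P : ℤ) - Q := by
      apply dvd_sub
      · exact_mod_cast hgP
      · exact_mod_cast hgQ
    obtain ⟨w, hw⟩ := hg
    have hbez := Nat.gcd_eq_gcd_ab i j
    refine ⟨(Nat.gcdA i j * w) % j, Int.emod_nonneg _ hjpos.ne', Int.emod_lt_of_pos _ hjpos, ?_⟩
    refine ⟨-(Nat.gcdB i j * w) - i * ((Nat.gcdA i j * w) / j), ?_⟩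
    have hdm := Int.emod_add_mul_ediv (Nat.gcdA i j * w) j
    have h1 : (Nat.gcdA i j * w) % j = Nat.gcdA i j * w - j * ((Nat.gcdA i j * w) / j) := by
      linarith
    rw [h1]
    have h2 : (P : ℤ) - Q = (i * Nat.gcdA i j + j * Nat.gcdB i j) * w := by
      rw [← hbez]; exact hw
    linear_combination (-1 : ℤ) * h2
  have hκ1 : -(R : ℤ) ≤ κ := by
    by_contra hc
    push Not at hc
    have h1 : κ ≤ -(R : ℤ) - 1 := by linarith
    have h2 : (j : ℤ) * κ ≤ j * (-(R : ℤ) - 1) := mul_le_mul_of_nonneg_left h1 hjpos.le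
    have h3 : (j : ℤ) * (-(R : ℤ) - 1) ≤ -(R : ℤ) - 1 := by nlinarith
    have h4 : (0 : ℤ) ≤ i * ρ := by positivity
    have h5 : (P : ℤ) ≤ R := by exact_mod_cast hP
    have h6 : (0 : ℤ) ≤ Q := by positivity
    linarith
  have hκ2 : κ ≤ R + N := by
    by_contra hc
    push Not at hc
    have h1 : (R : ℤ) + N + 1 ≤ κ := by linarith
    have h2 : (j : ℤ) * (R + N + 1) ≤ j * κ := mul_le_mul_of_nonneg_left h1 hjpos.le
    have h3 : (i : ℤ) * ρ ≤ i * j := mul_le_mul_of_nonneg_left hρj.le hipos.le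
    have h4 : (i : ℤ) * j ≤ N * j := by
      apply mul_le_mul_of_nonneg_right _ hjpos.le
      exact_mod_cast hiN
    have h5 : (Q : ℤ) ≤ R := by exact_mod_cast hQ
    have h6 : (0 : ℤ) ≤ P := by positivity
    have h7 : (R : ℤ) ≤ j * R := by
      have : (1 : ℤ) ≤ j := by exact_mod_cast hj
      nlinarith [show (0 : ℤ) ≤ R by positivity]
    nlinarith
  obtain ⟨z, hz⟩ := Int.eq_ofNat_of_zero_le (show 0 ≤ (R : ℤ) + N - κ by linarith)
  obtain ⟨ρ', rfl⟩ := Int.eq_ofNat_of_zero_le hρ0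
  have hzle : z ≤ 2 * R + N := by
    have : (z : ℤ) ≤ 2 * R + N := by linarith
    exact_mod_cast this
  have hih : 0 < i * h := by positivity
  set μ := (z + (i * h - 1)) / (i * h) with hμ
  have hμ1 : z ≤ i * h * μ := by
    have h1 := Nat.lt_mul_div_succ (z + (i * h - 1)) hih
    rw [← hμ] at h1
    have h2 : i * h * (μ + 1) = i * h * μ + i * h := by ring
    omega
  have hμ2 : i * h * μ < z + i * h := by
    have h1 := Nat.mul_div_le (z + (i * h - 1)) (i * h)
    rw [← hμ] at h1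
    omega
  have hμh : μ < h := by
    by_contra hc
    push Not at hc
    have h1 : i * h * h ≤ i * h * μ := Nat.mul_le_mul_left _ hc
    have h2 : z ≤ i * (h * (h - 1)) := by
      calc z ≤ 2 * R + N := hzle
        _ ≤ h * (h - 1) := hh
        _ ≤ i * (h * (h - 1)) := Nat.le_mul_of_pos_left _ hi
    obtain ⟨h', rfl⟩ : ∃ h', h = h' + 1 := ⟨h - 1, by omega⟩
    simp only [Nat.add_sub_cancel] at h2
    nlinarith
  refine ⟨i * h * μ - z, ρ', μ, ?_, by exact_mod_cast hρj, hμh, ?_⟩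
  · have h1 : i * h ≤ N * h := Nat.mul_le_mul_right _ hiN
    omega
  · have h1 : ((i * h * μ - z : ℕ) : ℤ) = i * h * μ - z := by
      rw [Nat.cast_sub hμ1]; push_cast; ring
    have h2 : ((j * (R + N + (i * h * μ - z)) + P : ℕ) : ℤ)
        = ((i * (ρ' + j * h * μ) + Q : ℕ) : ℤ) := by
      push_cast [h1]
      have h3 : (z : ℤ) = R + N - κ := by linarith
      rw [h3]
      linear_combination (-1 : ℤ) * hκ
    exact_mod_cast h2

/-! ### Pigeonhole and attaching -/

lemma pigeon {N n0 M : ℕ} (hN : 0 < N) (hM : N * n0 ≤ M) (F : Fin M → ℕ)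
    (hF : ∀ w, 1 ≤ F w ∧ F w ≤ N) :
    ∃ j, 1 ≤ j ∧ j ≤ N ∧ ∃ α : Fin n0 → Fin M, Function.Injective α ∧ ∀ r, F (α r) = j := by
  classical
  have h1 : ∀ a ∈ (univ : Finset (Fin M)), F a ∈ Finset.Icc 1 N := by
    intro a _
    exact Finset.mem_Icc.2 (hF a)
  have h2 : (Finset.Icc 1 N).Nonempty := ⟨1, Finset.mem_Icc.2 ⟨le_refl _, hN⟩⟩
  have h3 : (Finset.Icc 1 N).card * n0 ≤ (univ : Finset (Fin M)).card := by simpa using hM
  obtain ⟨j, hj, hc⟩ := Finset.exists_le_card_fiber_of_mul_le_card_of_maps_to h1 h2 h3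
  obtain ⟨S, hS, hSc⟩ := Finset.exists_subset_card_eq hc
  refine ⟨j, (Finset.mem_Icc.1 hj).1, (Finset.mem_Icc.1 hj).2, S.orderEmbOfFin hSc,
    (S.orderEmbOfFin hSc).injective, ?_⟩
  intro r
  have h4 := hS (Finset.orderEmbOfFin_mem S hSc r)
  simpa using h4

lemma attach {n0 M u j : ℕ} (F : Fin M → ℕ) (α : Fin n0 → Fin M) (hα : Function.Injective α)
    (hj : ∀ r, F (α r) = j) (hu : u ≤ n0)
    [DecidablePred (fun w => ∃ r : Fin n0, r.val < u ∧ α r = w)] :
    (∑ w, if (∃ r : Fin n0, r.val < u ∧ α r = w) then F w else 0) = j * u := by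
  rw [← Finset.sum_filter]
  have h1 : (univ.filter (fun w => ∃ r : Fin n0, r.val < u ∧ α r = w))
      = (univ : Finset (Fin u)).image (fun r => α (Fin.castLE hu r)) := by
    ext w
    simp only [mem_filter, mem_univ, true_and, mem_image]
    constructor
    · rintro ⟨r, hr, rfl⟩
      exact ⟨⟨r.val, hr⟩, rfl⟩
    · rintro ⟨r, rfl⟩
      exact ⟨Fin.castLE hu r, r.isLt, rfl⟩
  rw [h1, Finset.sum_image]
  · simp [hj, mul_comm]
  · intro a _ b _ hab
    exact Fin.castLE_injective hu (hα hab)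

/-! ### Bipartite graphs from relations -/

/-- The bipartite graph on `A ⊕ B` given by a relation between `A` and `B`. -/
def bip {A B : Type} (rel : A → B → Prop) : SimpleGraph (A ⊕ B) where
  Adj p q := match p, q with
    | .inl a, .inr b => rel a b
    | .inr b, .inl a => rel a b
    | _, _ => False
  symm := ⟨by
    intro p q h
    rcases p with a | b <;> rcases q with a' | b' <;> exact h⟩
  loopless := ⟨by
    intro p h
    rcases p with a | b <;> exact h⟩

lemma bip_colorable {A B : Type} (rel : A → B → Prop) : (bip rel).Colorable 2 := by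
  refine ⟨SimpleGraph.Coloring.mk (fun p => Sum.elim (fun _ => (0 : Fin 2)) (fun _ => 1) p) ?_⟩
  intro p q h
  rcases p with a | b <;> rcases q with a' | b'
  · exact absurd h (by simp [bip])
  · simp
  · simp
  · exact absurd h (by simp [bip])

open Classical in
lemma sum_inl {A B : Type} [Fintype A] [Fintype B] (rel : A → B → Prop) (f : A ⊕ B → ℕ)
    [DecidableRel (bip rel).Adj] (a : A) :
    ∑ w ∈ (bip rel).neighborFinset (Sum.inl a), f w
      = ∑ b : B, if rel a b then f (Sum.inr b) else 0 := by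
  have h1 : ∑ w ∈ (bip rel).neighborFinset (Sum.inl a), f w
      = ∑ w : A ⊕ B, if (bip rel).Adj (Sum.inl a) w then f w else 0 := by
    rw [← Finset.sum_filter]
    apply Finset.sum_congr _ (fun _ _ => rfl)
    ext w
    simp
  have h2 : ∀ a' : A, (if (bip rel).Adj (Sum.inl a) (Sum.inl a') then f (Sum.inl a') else 0) = 0 := by
    intro a'
    rw [if_neg]
    exact fun h => h
  have h3 : ∀ b : B, (if (bip rel).Adj (Sum.inl a) (Sum.inr b) then f (Sum.inr b) else 0)
      = if rel a b then f (Sum.inr b) else 0 := by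
    intro b
    by_cases h : rel a b
    · rw [if_pos h, if_pos]; exact h
    · rw [if_neg h, if_neg]; exact h
  rw [h1, Fintype.sum_sum_type, Finset.sum_eq_zero (fun a' _ => h2 a'), zero_add]
  exact Finset.sum_congr rfl (fun b _ => h3 b)

open Classical in
lemma sum_inr {A B : Type} [Fintype A] [Fintype B] (rel : A → B → Prop) (f : A ⊕ B → ℕ)
    [DecidableRel (bip rel).Adj] (b : B) :
    ∑ w ∈ (bip rel).neighborFinset (Sum.inr b), f w
      = ∑ a : A, if rel a b then f (Sum.inl a) else 0 := by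
  have h1 : ∑ w ∈ (bip rel).neighborFinset (Sum.inr b), f w
      = ∑ w : A ⊕ B, if (bip rel).Adj (Sum.inr b) w then f w else 0 := by
    rw [← Finset.sum_filter]
    apply Finset.sum_congr _ (fun _ _ => rfl)
    ext w
    simp
  have h2 : ∀ b' : B, (if (bip rel).Adj (Sum.inr b) (Sum.inr b') then f (Sum.inr b') else 0) = 0 := by
    intro b'
    rw [if_neg]
    exact fun h => h
  have h3 : ∀ a : A, (if (bip rel).Adj (Sum.inr b) (Sum.inl a) then f (Sum.inl a) else 0)
      = if rel a b then f (Sum.inl a) else 0 := by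
    intro a
    by_cases h : rel a b
    · rw [if_pos h, if_pos]; exact h
    · rw [if_neg h, if_neg]; exact h
  rw [h1, Fintype.sum_sum_type, Finset.sum_eq_zero (fun b' _ => h2 b'), add_zero]
  exact Finset.sum_congr rfl (fun a _ => h3 a)

/-! ### The construction -/

/-- Left and right vertices of the zero-sum graph. -/
abbrev Xg (q : ℕ) := Fin q × Finset (Fin q)
abbrev Yg (q : ℕ) := Finset (Fin q) × Fin q

/-- Indices of the gadgets. -/
abbrev Idx (n0 M N : ℕ) := (Fin n0 → Fin M) × (Fin n0 → Fin M) × Fin (N + 1)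

/-- The two sides of the graph. -/
abbrev SideA (N q h n0 M : ℕ) := Fin M ⊕ (Idx n0 M N × Xg q × Fin (N * h))
abbrev SideB (N q h n0 M : ℕ) := Fin M ⊕ (Idx n0 M N × Yg q × (Fin (N + 1) × Fin h))

/-- The adjacency relation. -/
def rel (N q h n0 M u0 : ℕ) : SideA N q h n0 M → SideB N q h n0 M → Prop
  | .inl _, .inl _ => False
  | .inl w, .inr (ι, _, l) => ∃ r : Fin n0, r.val < l.1.val + ι.2.2.val * h * l.2.val ∧ ι.2.1 r = w
  | .inr (ι, _, k), .inl w => ∃ r : Fin n0, r.val < u0 + k.val ∧ ι.1 r = w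
  | .inr (ι, x, _), .inr (ι', y, _) => ι = ι' ∧ x.1 ∈ y.1 ∧ y.2 ∈ x.2

open Classical in
lemma sumA {N q h n0 M u0 : ℕ} (f : SideB N q h n0 M → ℕ) (ι : Idx n0 M N)
    (t : Fin q) (T' : Finset (Fin q)) (k : Fin (N * h)) (j : ℕ)
    (hα : Function.Injective ι.1) (hj : ∀ r, f (Sum.inl (ι.1 r)) = j) (hu : u0 + k.val ≤ n0) :
    (∑ b, if rel N q h n0 M u0 (Sum.inr (ι, (t, T'), k)) b then f b else 0)
      = j * (u0 + k.val) + ∑ r ∈ T', ∑ T : Finset (Fin q),
          if t ∈ T then ∑ l, f (Sum.inr (ι, (T, r), l)) else 0 := by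
  rw [Fintype.sum_sum_type]
  congr 1
  · rw [← attach (fun w => f (Sum.inl w)) ι.1 hα hj hu]
    apply Finset.sum_congr rfl
    intro w _
    by_cases hw : ∃ r : Fin n0, r.val < u0 + k.val ∧ ι.1 r = w
    · rw [if_pos hw, if_pos]; exact hw
    · rw [if_neg hw, if_neg]; exact hw
  · rw [Fintype.sum_prod_type]
    rw [Finset.sum_eq_single ι]
    · rw [Fintype.sum_prod_type, Fintype.sum_prod_type, Finset.sum_comm]
      rw [← Finset.sum_filter_add_sum_filter_not univ (fun r => r ∈ T')]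
      have h1 : (univ.filter (fun r : Fin q => r ∈ T')) = T' := by ext; simp
      rw [h1]
      have h2 : (∑ r ∈ univ.filter (fun r : Fin q => ¬ r ∈ T'), ∑ T : Finset (Fin q),
          ∑ l : Fin (N + 1) × Fin h,
            if rel N q h n0 M u0 (Sum.inr (ι, (t, T'), k)) (Sum.inr (ι, (T, r), l))
            then f (Sum.inr (ι, (T, r), l)) else 0) = 0 := by
        apply Finset.sum_eq_zero
        intro r hr
        have hr' : r ∉ T' := by simpa using hr
        apply Finset.sum_eq_zero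
        intro T _
        apply Finset.sum_eq_zero
        intro l _
        rw [if_neg]
        simp [rel, hr']
      rw [h2, add_zero]
      apply Finset.sum_congr rfl
      intro r hr
      apply Finset.sum_congr rfl
      intro T _
      by_cases ht : t ∈ T
      · rw [if_pos ht]
        apply Finset.sum_congr rfl
        intro l _
        rw [if_pos]
        simp [rel, hr, ht]
      · rw [if_neg ht]
        apply Finset.sum_eq_zero
        intro l _
        rw [if_neg]
        simp [rel, ht]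
    · intro ι' _ hι
      apply Finset.sum_eq_zero
      intro p _
      rw [if_neg]
      simp [rel, Ne.symm hι]
    · intro h'; exact absurd (mem_univ _) h'

open Classical in
lemma sumB {N q h n0 M u0 : ℕ} (f : SideA N q h n0 M → ℕ) (ι : Idx n0 M N)
    (T : Finset (Fin q)) (t' : Fin q) (l : Fin (N + 1) × Fin h) (i : ℕ)
    (hβ : Function.Injective ι.2.1) (hi : ∀ r, f (Sum.inl (ι.2.1 r)) = i)
    (hv : l.1.val + ι.2.2.val * h * l.2.val ≤ n0) :
    (∑ a, if rel N q h n0 M u0 a (Sum.inr (ι, (T, t'), l)) then f a else 0)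
      = i * (l.1.val + ι.2.2.val * h * l.2.val) + ∑ r ∈ T, ∑ T' : Finset (Fin q),
          if t' ∈ T' then ∑ k, f (Sum.inr (ι, (r, T'), k)) else 0 := by
  rw [Fintype.sum_sum_type]
  congr 1
  · rw [← attach (fun w => f (Sum.inl w)) ι.2.1 hβ hi hv]
    apply Finset.sum_congr rfl
    intro w _
    by_cases hw : ∃ r : Fin n0, r.val < l.1.val + ι.2.2.val * h * l.2.val ∧ ι.2.1 r = w
    · rw [if_pos hw, if_pos]; exact hw
    · rw [if_neg hw, if_neg]; exact hw
  · rw [Fintype.sum_prod_type]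
    rw [Finset.sum_eq_single ι]
    · rw [Fintype.sum_prod_type, Fintype.sum_prod_type]
      rw [← Finset.sum_filter_add_sum_filter_not univ (fun r => r ∈ T)]
      have h1 : (univ.filter (fun r : Fin q => r ∈ T)) = T := by ext; simp
      rw [h1]
      have h2 : (∑ r ∈ univ.filter (fun r : Fin q => ¬ r ∈ T), ∑ T' : Finset (Fin q),
          ∑ k : Fin (N * h),
            if rel N q h n0 M u0 (Sum.inr (ι, (r, T'), k)) (Sum.inr (ι, (T, t'), l))
            then f (Sum.inr (ι, (r, T'), k)) else 0) = 0 := by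
        apply Finset.sum_eq_zero
        intro r hr
        have hr' : r ∉ T := by simpa using hr
        apply Finset.sum_eq_zero
        intro T' _
        apply Finset.sum_eq_zero
        intro k _
        rw [if_neg]
        simp [rel, hr']
      rw [h2, add_zero]
      apply Finset.sum_congr rfl
      intro r hr
      apply Finset.sum_congr rfl
      intro T' _
      by_cases ht : t' ∈ T'
      · rw [if_pos ht]
        apply Finset.sum_congr rfl
        intro k _
        rw [if_pos]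
        simp [rel, hr, ht]
      · rw [if_neg ht]
        apply Finset.sum_eq_zero
        intro k _
        rw [if_neg]
        simp [rel, ht]
    · intro ι' _ hι
      apply Finset.sum_eq_zero
      intro p _
      rw [if_neg]
      simp [rel, hι]
    · intro h'; exact absurd (mem_univ _) h'

/-- For every `N ≥ 1` some finite bipartite graph has no additive coloring with labels in
`{1, …, N}`. -/
theorem main (N : ℕ) (hN : 0 < N) :
    ∃ (A B : Type) (_ : Fintype A) (_ : Fintype B) (rl : A → B → Prop),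
      ∀ [DecidableRel (bip rl).Adj] (f : A ⊕ B → ℕ), (∀ v, 1 ≤ f v ∧ f v ≤ N) →
        ∃ u v, (bip rl).Adj u v ∧
          ∑ w ∈ (bip rl).neighborFinset u, f w = ∑ w ∈ (bip rl).neighborFinset v, f w := by
  classical
  -- parameters
  obtain ⟨q, hq⟩ : ∃ q : ℕ, q = 4 * N := ⟨_, rfl⟩
  obtain ⟨D, hD⟩ : ∃ D : ℕ, D = q * 2 ^ q := ⟨_, rfl⟩
  obtain ⟨h, hh⟩ : ∃ h : ℕ, h = 2 * (D * (N * (N + 1))) + N + 1 := ⟨_, rfl⟩
  obtain ⟨R, hR⟩ : ∃ R : ℕ, R = D * (N * (N + 1)) * h := ⟨_, rfl⟩
  obtain ⟨n0, hn0⟩ : ∃ n0 : ℕ, n0 = R + N + N * h + N + N * h * h := ⟨_, rfl⟩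
  obtain ⟨M, hM⟩ : ∃ M : ℕ, M = N * n0 := ⟨_, rfl⟩
  have hh0 : 0 < h := by omega
  have hhR : 2 * R + N ≤ h * (h - 1) := by
    have e : h - 1 = 2 * (D * (N * (N + 1))) + N := by omega
    rw [e, hR]
    have e2 : h * (2 * (D * (N * (N + 1))) + N) = 2 * (D * (N * (N + 1)) * h) + h * N := by ring
    rw [e2]
    have : N ≤ h * N := Nat.le_mul_of_pos_left _ hh0
    omega
  refine ⟨SideA N q h n0 M, SideB N q h n0 M, inferInstance, inferInstance,
    rel N q h n0 M (R + N), ?_⟩
  intro _ f hf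
  -- homogeneous sets on top
  obtain ⟨j, hj1, hjN, α, hα, hαj⟩ := pigeon (n0 := n0) (M := M) hN hM.ge
    (fun w => f (Sum.inr (Sum.inl w))) (fun w => hf _)
  obtain ⟨i, hi1, hiN, β, hβ, hβi⟩ := pigeon (n0 := n0) (M := M) hN hM.ge
    (fun w => f (Sum.inl (Sum.inl w))) (fun w => hf _)
  let ι : Idx n0 M N := (α, β, ⟨j, by omega⟩)
  let fA : SideA N q h n0 M → ℕ := fun a => f (Sum.inl a)
  let fB : SideB N q h n0 M → ℕ := fun b => f (Sum.inr b)
  -- the zero-sum graph
  let σ : Fin q → Fin q → ℕ := fun r t' => ∑ T' : Finset (Fin q),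
    if t' ∈ T' then ∑ k, fA (Sum.inr (ι, (r, T'), k)) else 0
  let β' : Fin q → Fin q → ℕ := fun t r => ∑ T : Finset (Fin q),
    if t ∈ T then ∑ l, fB (Sum.inr (ι, (T, r), l)) else 0
  have hgpos : 0 < Nat.gcd i j := Nat.gcd_pos_of_pos_left _ hi1
  have hgN : Nat.gcd i j ≤ N := (Nat.gcd_le_left _ hi1).trans hiN
  obtain ⟨t, t', T, T', htT, htT', hg1, hg2⟩ := gamma hgpos (by omega : 4 * Nat.gcd i j ≤ q) σ β'
  set Q := ∑ r ∈ T, σ r t' with hQ
  set P := ∑ r ∈ T', β' t r with hP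
  have hPR : P ≤ R := by
    have h1 : ∀ r, β' t r ≤ 2 ^ q * ((N + 1) * h * N) := by
      intro r
      calc β' t r ≤ ∑ _T : Finset (Fin q), ((N + 1) * h * N) := by
            apply Finset.sum_le_sum
            intro S _
            split_ifs
            · calc ∑ l, fB (Sum.inr (ι, (S, r), l)) ≤ ∑ _l : Fin (N + 1) × Fin h, N :=
                    Finset.sum_le_sum (fun l _ => (hf _).2)
                _ = (N + 1) * h * N := by simp
            · exact Nat.zero_le _
        _ = 2 ^ q * ((N + 1) * h * N) := by simp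
    calc P ≤ ∑ _r ∈ T', 2 ^ q * ((N + 1) * h * N) := Finset.sum_le_sum (fun r _ => h1 r)
      _ = T'.card * (2 ^ q * ((N + 1) * h * N)) := by simp
      _ ≤ q * (2 ^ q * ((N + 1) * h * N)) := by
          apply Nat.mul_le_mul_right
          simpa using Finset.card_le_univ T'
      _ = R := by rw [hR, hD]; ring
  have hQR : Q ≤ R := by
    have h1 : ∀ r, σ r t' ≤ 2 ^ q * (N * h * N) := by
      intro r
      calc σ r t' ≤ ∑ _T : Finset (Fin q), (N * h * N) := by
            apply Finset.sum_le_sum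
            intro S _
            split_ifs
            · calc ∑ k, fA (Sum.inr (ι, (r, S), k)) ≤ ∑ _k : Fin (N * h), N :=
                    Finset.sum_le_sum (fun l _ => (hf _).2)
                _ = N * h * N := by simp
            · exact Nat.zero_le _
        _ = 2 ^ q * (N * h * N) := by simp
    calc Q ≤ ∑ _r ∈ T, 2 ^ q * (N * h * N) := Finset.sum_le_sum (fun r _ => h1 r)
      _ = T.card * (2 ^ q * (N * h * N)) := by simp
      _ ≤ q * (2 ^ q * (N * h * N)) := by
          apply Nat.mul_le_mul_right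
          simpa using Finset.card_le_univ T
      _ ≤ q * (2 ^ q * ((N + 1) * h * N)) := by
          apply Nat.mul_le_mul_left
          apply Nat.mul_le_mul_left
          apply Nat.mul_le_mul_right
          apply Nat.mul_le_mul_right
          omega
      _ = R := by rw [hR, hD]; ring
  obtain ⟨k, ρ, μ, hk, hρ, hμ, heq⟩ := cover hi1 hiN hj1 hPR hQR hg2 hg1 hh0 hhR
  have hu : R + N + k ≤ n0 := by omega
  have hv : ρ + j * h * μ ≤ n0 := by
    have h1 : j * h * μ ≤ N * h * h := Nat.mul_le_mul (Nat.mul_le_mul_right _ hjN) hμ.le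
    omega
  let x : SideA N q h n0 M := Sum.inr (ι, (t, T'), ⟨k, hk⟩)
  let y : SideB N q h n0 M := Sum.inr (ι, (T, t'), (⟨ρ, by omega⟩, ⟨μ, hμ⟩))
  refine ⟨Sum.inl x, Sum.inr y, ?_, ?_⟩
  · show rel N q h n0 M (R + N) x y
    exact ⟨rfl, htT, htT'⟩
  · rw [sum_inl, sum_inr]
    have e1 := sumA (u0 := R + N) fB ι t T' ⟨k, hk⟩ j hα hαj hu
    have e2 := sumB (u0 := R + N) fA ι T t' (⟨ρ, by omega⟩, ⟨μ, hμ⟩) i hβ hβi hv
    exact (e1.trans (heq.trans e2.symm))

end Pool.Agent.Lib.MP_84c3f1_co
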